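import Mathlib

/-! Shadows, reduced shadows, resolutions and ambient isotopy.  The plane is `ℂ`, space is `ℂ × ℝ`
and closed curves are `1`-periodic maps on `ℝ`. -/

namespace Pool.Agent.MP_a5f24b_gt
open Set
open scoped ContDiff unitInterval

/-- The crossings (multiple points) of the closed curve `γ`. -/
def crossings (γ : ℝ → ℂ) : Set ℂ :=
  {x | ∃ s ∈ Ico (0 : ℝ) 1, ∃ t ∈ Ico (0 : ℝ) 1, s ≠ t ∧ γ s = x ∧ γ t = x}

/-- `γ` is a generic smooth immersion of the circle `ℝ / ℤ` into the plane: finitely many multiple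
points, all of them transverse double points. -/
structure IsShadow (γ : ℝ → ℂ) : Prop where
  smooth : ContDiff ℝ ∞ γ
  periodic : Function.Periodic γ 1
  immersion : ∀ s, deriv γ s ≠ 0
  finite : (crossings γ).Finite
  double : ∀ r ∈ Ico (0 : ℝ) 1, ∀ s ∈ Ico (0 : ℝ) 1, ∀ t ∈ Ico (0 : ℝ) 1,
    γ r = γ s → γ s = γ t → r = s ∨ s = t ∨ r = t
  transverse : ∀ s ∈ Ico (0 : ℝ) 1, ∀ t ∈ Ico (0 : ℝ) 1, s ≠ t → γ s = γ t →
    LinearIndependent ℝ ![deriv γ s, deriv γ t]

/-- `C` is a simple closed curve in the plane. -/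
def IsJordan (C : Set ℂ) : Prop :=
  ∃ c : ℝ → ℂ, ContinuousOn c (Icc 0 1) ∧ c 0 = c 1 ∧ InjOn c (Ico 0 1) ∧ C = c '' Icc 0 1

/-- Some simple closed curve meets the shadow only at `x`, and crosses it there: the shadow has
points in two different components of the complement of the curve. -/
def Nugatory (γ : ℝ → ℂ) (x : ℂ) : Prop :=
  ∃ C, IsJordan C ∧ C ∩ range γ = {x} ∧
    ∃ p ∈ range γ \ {x}, ∃ q ∈ range γ \ {x}, q ∉ connectedComponentIn Cᶜ p

/-- No crossing is nugatory. -/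
def Reduced (γ : ℝ → ℂ) : Prop := ∀ x ∈ crossings γ, ¬ Nugatory γ x

/-- A smooth height function that separates the two strands at every crossing, that is, an
over/under choice. -/
def IsLift (γ : ℝ → ℂ) (h : ℝ → ℝ) : Prop :=
  ContDiff ℝ ∞ h ∧ Function.Periodic h 1 ∧
    ∀ s ∈ Ico (0 : ℝ) 1, ∀ t ∈ Ico (0 : ℝ) 1, s ≠ t → γ s = γ t → h s ≠ h t

/-- The knot in space with projection `γ` and height `h`. -/
def knot (γ : ℝ → ℂ) (h : ℝ → ℝ) : Set (ℂ × ℝ) := range fun s => (γ s, h s)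

/-- Ambient isotopy of subsets of space. -/
def Isotopic (K K' : Set (ℂ × ℝ)) : Prop :=
  ∃ H : I → ℂ × ℝ → ℂ × ℝ, Continuous (Function.uncurry H) ∧ (∀ t, IsHomeomorph (H t)) ∧
    H 0 = id ∧ H 1 '' K = K'

/-- The set of isotopy classes of knots into which the shadow resolves. -/
def knotTypes (γ : ℝ → ℂ) : Set (Set (Set (ℂ × ℝ))) :=
  {cl | ∃ h, IsLift γ h ∧ cl = {K | Isotopic (knot γ h) K}}

end Pool.Agent.MP_a5f24b_gt
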