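import Mathlib

/-! Flat group-valued cocycles (local systems in a germ form) and the monodromy theorem. -/

namespace Pool.Agent.MP_a5f24b_gt
open Set Filter Topology

variable {G : Type*} [Group G] {X Y : Type*} [TopologicalSpace X] [TopologicalSpace Y]

/-- `c w` is a local trivialisation near `w` of a flat `G`-structure. -/
def FlatAt (c : X → X → G) (w : X) : Prop := ∀ᶠ v in 𝓝 w, ∀ᶠ u in 𝓝 v, c w u = c v u * c w v

/-- `b` is a trivialisation of `c` on `A`. -/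
def TrivOn (c : X → X → G) (b : X → G) (A : Set X) : Prop :=
  ∀ w ∈ A, ∀ᶠ u in 𝓝[A] w, c w u = b u * (b w)⁻¹

theorem const_of_loc {α : Type*} {F : X → α} {A : Set X} (hA : IsPreconnected A)
    (h : ∀ w ∈ A, ∀ᶠ u in 𝓝[A] w, F u = F w) {x y : X} (hx : x ∈ A) (hy : y ∈ A) : F x = F y :=
  hA.induction₂ (fun x y => F x = F y) (fun x hx => (h x hx).mono fun _ h => h.symm)
    (fun _ _ _ _ _ _ h1 h2 => h1.trans h2) (fun _ _ _ _ h => h.symm) hx hy

theorem FlatAt.self {c : X → X → G} {w : X} (h : FlatAt c w) : c w w = 1 := by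
  have := h.self_of_nhds.self_of_nhds
  simpa using this

theorem FlatAt.comp {c : X → X → G} {f : Y → X} {w : Y} (h : FlatAt c (f w))
    (hf : ∀ᶠ v in 𝓝 w, ContinuousAt f v) : FlatAt (fun x y => c (f x) (f y)) w := by
  have h1 := hf.self_of_nhds.eventually h
  filter_upwards [h1, hf] with v hv hv'
  exact hv'.eventually hv

theorem FlatAt.map {G' : Type*} [Group G'] {c : X → X → G} {w : X} (h : FlatAt c w) (φ : G →* G') :
    FlatAt (fun x y => φ (c x y)) w := by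
  filter_upwards [h] with v hv
  filter_upwards [hv] with u hu
  rw [hu, map_mul]

theorem FlatAt.gauge {c : X → X → G} {w : X} (h : FlatAt c w) (b : X → G) :
    FlatAt (fun x y => b y * c x y * (b x)⁻¹) w := by
  filter_upwards [h] with v hv
  filter_upwards [hv] with u hu
  rw [hu]; group

theorem TrivOn.mono {c : X → X → G} {b : X → G} {A B : Set X} (h : TrivOn c b A) (hB : B ⊆ A) :
    TrivOn c b B := fun w hw => (h w (hB hw)).filter_mono (nhdsWithin_mono _ hB)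

theorem TrivOn.mul {c : X → X → G} {b : X → G} {A : Set X} (h : TrivOn c b A) (k : G) :
    TrivOn c (fun x => b x * k) A := fun w hw => (h w hw).mono fun u hu => by
  rw [hu]; group

theorem TrivOn.uniq {c : X → X → G} {b b' : X → G} {A : Set X} (h : TrivOn c b A)
    (h' : TrivOn c b' A) (hA : IsPreconnected A) {x y : X} (hx : x ∈ A) (hy : y ∈ A) :
    (b' x)⁻¹ * b x = (b' y)⁻¹ * b y := by
  refine const_of_loc (F := fun x => (b' x)⁻¹ * b x) hA (fun w hw => ?_) hx hy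
  filter_upwards [h w hw, h' w hw] with u h1 h2
  have : b u = b' u * (b' w)⁻¹ * b w := by rw [← h2, h1]; group
  rw [this]; group

theorem FlatAt.exists_triv {c : X → X → G} {w : X} (h : FlatAt c w) :
    ∃ V ∈ 𝓝 w, ∀ v ∈ V, ∀ᶠ u in 𝓝 v, c v u = c w u * (c w v)⁻¹ := by
  refine ⟨_, h, fun v hv => ?_⟩
  filter_upwards [hv] with u hu
  rw [hu]; group

theorem TrivOn.union {c : X → X → G} {b b' : X → G} {A B : Set X} (h : TrivOn c b A)
    (h' : TrivOn c b' B) (hA : IsClosed A) (hB : IsClosed B) (hAB : IsPreconnected (A ∩ B))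
    {x : X} (hx : x ∈ A ∩ B) : ∃ β, TrivOn c β (A ∪ B) := by
  classical
  have h2 := h'.mul ((b' x)⁻¹ * b x)
  have hag : ∀ y ∈ A ∩ B, b' y * ((b' x)⁻¹ * b x) = b y := by
    intro y hy
    rw [(h.mono inter_subset_left).uniq (h'.mono inter_subset_right) hAB hx hy]; group
  refine ⟨fun y => if y ∈ A then b y else b' y * ((b' x)⁻¹ * b x), fun w hw => ?_⟩
  have eA : ∀ y ∈ A, (if y ∈ A then b y else b' y * ((b' x)⁻¹ * b x)) = b y :=
    fun y hy => if_pos hy
  have eB : ∀ y ∈ B, (if y ∈ A then b y else b' y * ((b' x)⁻¹ * b x)) =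
      b' y * ((b' x)⁻¹ * b x) := by
    intro y hy
    split_ifs with hyA
    · exact (hag y ⟨hyA, hy⟩).symm
    · rfl
  rw [nhdsWithin_union, eventually_sup]
  constructor
  · by_cases hwA : w ∈ A
    · filter_upwards [h w hwA, self_mem_nhdsWithin] with u hu huA
      rw [eA u huA, eA w hwA, hu]
    · have : 𝓝[A] w = ⊥ := by
        rw [← notMem_closure_iff_nhdsWithin_eq_bot, hA.closure_eq]; exact hwA
      rw [this]; exact eventually_bot
  · by_cases hwB : w ∈ B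
    · filter_upwards [h2 w hwB, self_mem_nhdsWithin] with u hu huB
      rw [eB u huB, eB w hwB, hu]
    · have : 𝓝[B] w = ⊥ := by
        rw [← notMem_closure_iff_nhdsWithin_eq_bot, hB.closure_eq]; exact hwB
      rw [this]; exact eventually_bot

theorem triv_uIcc {c : ℝ → ℝ → G} (h : ∀ w, FlatAt c w) (s t : ℝ) :
    ∃ b, TrivOn c b (uIcc s t) := by
  refine isPreconnected_univ.induction₂ (fun s t => ∃ b, TrivOn c b (uIcc s t)) ?_ ?_ ?_
    (mem_univ s) (mem_univ t)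
  · intro x _
    obtain ⟨V, hV, hv⟩ := (h x).exists_triv
    obtain ⟨ε, hε, hb⟩ := Metric.mem_nhds_iff.1 hV
    rw [nhdsWithin_univ]
    filter_upwards [Metric.ball_mem_nhds x hε] with y hy
    refine ⟨c x, fun w hw => ?_⟩
    have : w ∈ V := hb ((convex_ball x ε).ordConnected.uIcc_subset (Metric.mem_ball_self hε) hy hw)
    exact (hv w this).filter_mono nhdsWithin_le_nhds
  · rintro x y z - - - ⟨b, hb⟩ ⟨b', hb'⟩
    obtain ⟨β, hβ⟩ := hb.union hb' isCompact_uIcc.isClosed isCompact_uIcc.isClosed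
      ((convex_uIcc x y).inter (convex_uIcc y z)).isPreconnected
      ⟨right_mem_uIcc, left_mem_uIcc⟩
    exact ⟨β, hβ.mono uIcc_subset_uIcc_union_uIcc⟩
  · rintro x y - - ⟨b, hb⟩
    exact ⟨b, by rwa [uIcc_comm]⟩

theorem triv_real {c : ℝ → ℝ → G} (h : ∀ w, FlatAt c w) (g : G) :
    ∃ b, b 0 = g ∧ TrivOn c b univ := by
  have h1 : ∀ s t, (0 : ℝ) ∈ uIcc s t → ∃ b, b 0 = g ∧ TrivOn c b (uIcc s t) := by
    intro s t _
    obtain ⟨b, hb⟩ := triv_uIcc h s t
    exact ⟨fun x => b x * ((b 0)⁻¹ * g), by simp, hb.mul _⟩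
  choose B hB0 hB using fun t => h1 0 t left_mem_uIcc
  refine ⟨fun t => B t t, hB0 0, fun w _ => ?_⟩
  have hm : (0 : ℝ) ∈ uIcc (-(|w| + 1)) (|w| + 1) := by
    rw [uIcc_of_le (by linarith [abs_nonneg w])]
    constructor <;> linarith [abs_nonneg w]
  obtain ⟨β, hβ0, hβ⟩ := h1 _ _ hm
  have hag : ∀ t ∈ uIcc (-(|w| + 1)) (|w| + 1), B t t = β t := by
    intro t ht
    have := (hB t).uniq (hβ.mono (uIcc_subset_uIcc hm ht)) isPreconnected_uIcc
      right_mem_uIcc left_mem_uIcc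
    rw [hB0, hβ0] at this
    have h3 : B t t = β t * ((β t)⁻¹ * B t t) := by group
    rw [h3, this]; group
  have hn : uIcc (-(|w| + 1)) (|w| + 1) ∈ 𝓝 w := by
    rw [uIcc_of_le (by linarith [abs_nonneg w])]
    exact Icc_mem_nhds (by linarith [neg_abs_le w]) (by linarith [le_abs_self w])
  have h4 := hβ w (mem_of_mem_nhds hn)
  rw [nhdsWithin_eq_nhds.2 hn] at h4
  rw [nhdsWithin_univ]
  filter_upwards [h4, hn] with u hu hu'
  rw [hag u hu', hag w (mem_of_mem_nhds hn), hu]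

/-- The homotopy (monodromy) theorem. -/
theorem triv_prod {c : Y × ℝ → Y × ℝ → G} (h : ∀ w, FlatAt c w) {b0 : Y → G}
    (h0 : ∀ y, ∀ᶠ y' in 𝓝 y, c (y, 0) (y', 0) = b0 y' * (b0 y)⁻¹) :
    ∃ b : Y × ℝ → G, ∀ w, ∀ᶠ u in 𝓝 w, c w u = b u * (b w)⁻¹ := by
  have hf : ∀ y, ∀ t, FlatAt (fun s t : ℝ => c (y, s) (y, t)) t := fun y t =>
    (h (y, t)).comp (f := fun s : ℝ => (y, s)) (Eventually.of_forall fun _ => by fun_prop)
  choose B hB0 hB using fun y => triv_real (hf y) (b0 y)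
  refine ⟨fun w => B w.1 w.2, fun w => ?_⟩
  obtain ⟨y, t⟩ := w
  -- local analysis
  have key : ∀ t, ∃ k : Y → G, ∀ᶠ s in 𝓝 t, (∀ᶠ u in 𝓝 (y, s), B u.1 u.2 = c (y, t) u * k u.1) ∧
      ∀ᶠ u in 𝓝 (y, s), c (y, s) u = c (y, t) u * (c (y, t) (y, s))⁻¹ := by
    intro t
    obtain ⟨V, hV, hv⟩ := (h (y, t)).exists_triv
    rw [nhds_prod_eq, mem_prod_iff] at hV
    obtain ⟨N, hN, J, hJ, hNJ⟩ := hV
    obtain ⟨ε, hε, hb⟩ := Metric.mem_nhds_iff.1 hJ
    refine ⟨fun y' => (c (y, t) (y', t))⁻¹ * B y' t, ?_⟩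
    filter_upwards [Metric.ball_mem_nhds t hε] with s hs
    refine ⟨?_, hv _ (hNJ ⟨mem_of_mem_nhds hN, hb hs⟩)⟩
    have : N ×ˢ Metric.ball t ε ∈ 𝓝 (y, s) :=
      prod_mem_nhds hN (Metric.isOpen_ball.mem_nhds hs)
    filter_upwards [this] with u hu
    have t1 : TrivOn (fun s t : ℝ => c (u.1, s) (u.1, t)) (fun s => c (y, t) (u.1, s))
        (Metric.ball t ε) := by
      intro r hr
      have := hv (u.1, r) (hNJ ⟨hu.1, hb hr⟩)
      have h3 : ContinuousAt (fun s : ℝ => (u.1, s)) r := by fun_prop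
      exact (h3.eventually this).filter_mono nhdsWithin_le_nhds
    have := ((hB u.1).mono (subset_univ _)).uniq t1 (convex_ball t ε).isPreconnected hu.2
      (Metric.mem_ball_self hε)
    rw [← this]; simp
  have P : ∀ t, ∃ k : Y → G, ∀ᶠ s in 𝓝 t,
      ((∀ᶠ u in 𝓝 (y, s), c (y, s) u = B u.1 u.2 * (B y s)⁻¹) ↔ ∀ᶠ y' in 𝓝 y, k y' = k y) ∧
      ((∀ᶠ y' in 𝓝 y, c (y, s) (y', s) = B y' s * (B y s)⁻¹) → ∀ᶠ y' in 𝓝 y, k y' = k y) := by
    intro t
    obtain ⟨k, hk⟩ := key t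
    refine ⟨k, ?_⟩
    filter_upwards [hk] with s ⟨h1, h2⟩
    have h3 : ContinuousAt (fun y' : Y => (y', s)) y := by fun_prop
    have e0 : B y s = c (y, t) (y, s) * k y := h1.self_of_nhds
    have imp : (∀ᶠ y' in 𝓝 y, c (y, s) (y', s) = B y' s * (B y s)⁻¹) →
        ∀ᶠ y' in 𝓝 y, k y' = k y := by
      intro h4
      filter_upwards [h3.eventually h1, h3.eventually h2, h4] with y' e1 e2 e3
      rw [e2, e1, e0] at e3
      have : k y' = (c (y, t) (y', s))⁻¹ * (c (y, t) (y', s) * k y' *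
        (c (y, t) (y, s) * k y)⁻¹) * (c (y, t) (y, s) * k y) := by group
      rw [this, ← e3]; group
    refine ⟨⟨fun h4 => imp (h3.eventually h4), fun h4 => ?_⟩, imp⟩
    have h5 : ContinuousAt (fun u : Y × ℝ => u.1) (y, s) := by fun_prop
    filter_upwards [h1, h2, h5.eventually h4] with u e1 e2 e3
    rw [e2, e1, e0, e3]; group
  have hc : (∀ᶠ u in 𝓝 (y, t), c (y, t) u = B u.1 u.2 * (B y t)⁻¹) =
      (∀ᶠ u in 𝓝 (y, (0 : ℝ)), c (y, 0) u = B u.1 u.2 * (B y 0)⁻¹) := by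
    refine const_of_loc (F := fun s : ℝ => ∀ᶠ u in 𝓝 (y, s), c (y, s) u = B u.1 u.2 * (B y s)⁻¹)
      isPreconnected_univ (fun r _ => ?_) (mem_univ t) (mem_univ 0)
    obtain ⟨k, hk⟩ := P r
    rw [nhdsWithin_univ]
    filter_upwards [hk] with s hs
    exact propext (hs.1.trans hk.self_of_nhds.1.symm)
  show ∀ᶠ u in 𝓝 (y, t), c (y, t) u = B u.1 u.2 * (B y t)⁻¹
  rw [hc]
  obtain ⟨k, hk⟩ := P 0
  refine hk.self_of_nhds.1.2 (hk.self_of_nhds.2 ?_)
  simpa only [hB0] using h0 y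

/-- Triviality is transported along a homotopy. -/
theorem triv_homotopy {c : X → X → G} {H : Y × ℝ → X} (hH : Continuous H)
    (h : ∀ w, FlatAt c (H w)) {b0 : Y → G}
    (h0 : ∀ y, ∀ᶠ y' in 𝓝 y, c (H (y, 0)) (H (y', 0)) = b0 y' * (b0 y)⁻¹) :
    ∃ b : Y → G, ∀ y, ∀ᶠ y' in 𝓝 y, c (H (y, 1)) (H (y', 1)) = b y' * (b y)⁻¹ := by
  obtain ⟨b, hb⟩ := triv_prod (c := fun x y => c (H x) (H y))
    (fun w => (h w).comp (Eventually.of_forall fun _ => hH.continuousAt)) h0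
  refine ⟨fun y => b (y, 1), fun y => ?_⟩
  have h3 : ContinuousAt (fun y' : Y => (y', (1 : ℝ))) y := by fun_prop
  exact h3.eventually (hb (y, 1))

theorem triv_complex {c : ℂ → ℂ → G} (h : ∀ w, FlatAt c w) :
    ∃ b : ℂ → G, ∀ y, ∀ᶠ y' in 𝓝 y, c y y' = b y' * (b y)⁻¹ := by
  have := triv_homotopy (c := c) (H := fun w : ℂ × ℝ => (w.2 : ℂ) * w.1) (by fun_prop)
    (fun w => h _) (b0 := fun _ => 1) (fun y => Eventually.of_forall fun y' => by
      simp [(h 0).self])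
  simpa using this

/-- A flat structure on the punctured plane which is identically trivial near infinity is
trivial. -/
theorem triv_punct {c : ℂ → ℂ → G} {q : ℂ} (h : ∀ w, w ≠ q → FlatAt c w) {R : ℝ}
    (hR : ∀ w, R < ‖w - q‖ → ∀ᶠ u in 𝓝 w, c w u = 1) :
    ∃ b : ℂ → G, ∀ y, y ≠ q → ∀ᶠ y' in 𝓝 y, c y y' = b y' * (b y)⁻¹ := by
  classical
  obtain ⟨ι, hι⟩ : ∃ ι : ℂ → ℂ, ι = fun p => q + (p - q)⁻¹ := ⟨_, rfl⟩
  have hιι : ∀ p, ι (ι p) = p := by intro p; simp [hι]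
  have hιc : ∀ p, p ≠ q → ContinuousAt ι p := by
    intro p hp
    rw [hι]
    exact continuousAt_const.add ((continuousAt_id.sub continuousAt_const).inv₀ (sub_ne_zero.2 hp))
  have hιne : ∀ p, p ≠ q → ι p ≠ q := by
    intro p hp; simp [hι, sub_ne_zero.2 hp]
  have hev : ∀ p, p ≠ q → ∀ᶠ v in 𝓝 p, v ≠ q := fun p hp => isOpen_ne.mem_nhds hp
  obtain ⟨b, hb⟩ := triv_complex (c := fun p p' => if p = q then 1 else c (ι p) (ι p')) (by
    intro w
    by_cases hw : w = q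
    · subst hw
      have hpos : (0 : ℝ) < (|R| + 1)⁻¹ := by positivity
      filter_upwards [Metric.ball_mem_nhds w hpos] with v hv
      by_cases hvw : v = w
      · simp [hvw]
      · have h1 : R < ‖ι v - w‖ := by
          rw [hι]; simp only [add_sub_cancel_left, norm_inv]
          have h2 : 0 < ‖v - w‖ := norm_pos_iff.2 (sub_ne_zero.2 hvw)
          rw [Metric.mem_ball, dist_eq_norm] at hv
          have := (lt_inv_comm₀ h2 (by positivity)).1 hv
          linarith [le_abs_self R]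
        filter_upwards [(hιc v hvw).eventually (hR _ h1)] with u hu
        simp [hvw, hu]
    · have h1 := (h _ (hιne w hw)).comp (f := ι) ((hev w hw).mono fun v hv => hιc v hv)
      filter_upwards [h1, hev w hw] with v hv hvq
      simpa only [if_neg hw, if_neg hvq] using hv)
  refine ⟨fun p => b (ι p), fun y hy => ?_⟩
  filter_upwards [(hιc y hy).eventually (hb (ι y))] with u hu
  rw [if_neg (hιne y hy), hιι, hιι] at hu
  exact hu

/-- Locally constant functions on a convex piece of a neighbourhood are constant there. -/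
theorem const_on_convex {P : Type*} [NormedAddCommGroup P] [NormedSpace ℝ P] {α : Type*}
    {F : P → α} {x : P} {Cv : Set P} (hC : Convex ℝ Cv)
    (h : ∀ᶠ y in 𝓝 x, y ∈ Cv → ∀ᶠ y' in 𝓝 y, F y' = F y) :
    ∃ k, ∀ᶠ y in 𝓝 x, y ∈ Cv → F y = k := by
  obtain ⟨ε, hε, hb⟩ := Metric.eventually_nhds_iff_ball.1 h
  by_cases hne : (Metric.ball x ε ∩ Cv).Nonempty
  · obtain ⟨y0, hy0⟩ := hne
    refine ⟨F y0, ?_⟩
    filter_upwards [Metric.ball_mem_nhds x hε] with y hy hyC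
    exact const_of_loc ((convex_ball x ε).inter hC).isPreconnected
      (fun w hw => (hb w hw.1 hw.2).filter_mono nhdsWithin_le_nhds) ⟨hy, hyC⟩ hy0
  · refine ⟨F x, ?_⟩
    filter_upwards [Metric.ball_mem_nhds x hε] with y hy hyC
    exact absurd ⟨y, hy, hyC⟩ hne

end Pool.Agent.MP_a5f24b_gt
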